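import Pool.Agent.R333.SubC

/-!
# `gcd([α b ^ (k + m)] [β b ^ m] + 1, b ^ m) < b ^ (ε m)` for all large `m`

Four applications of the subspace theorem: to `(b^{2m}, b^m x, b^m y, b^m, 1, x, y, xy + 1)`, to
`(b^m, 1, x, y)`, to `(b^{2m}, b^m x, b^m, 1, x, xy + 1)` and to `(b^m, 1, x)`, where `x = [α b^m]`
(with `α b^k` for `α`) and `y = [β b^m]`.
-/

set_option autoImplicit false

open Finset Filter Topology

namespace Pool.Agent.Results.MP_077ac3_nt.SmallGcd

open Pool.Agent.R333.SubR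

/-- `[α b ^ m] [β b ^ m] + 1` -/
noncomputable def f0 (b : ℕ) (α β : ℝ) (m : ℕ) : ℤ :=
  ⌊α * (b : ℝ) ^ m⌋ * ⌊β * (b : ℝ) ^ m⌋ + 1

/-- the bad indices -/
def Bad (b : ℕ) (α β ε : ℝ) (m : ℕ) : Prop :=
  (b : ℝ) ^ (ε * m) ≤ (Int.gcd (f0 b α β m) ((b : ℤ) ^ m) : ℝ)

lemma gcd_dvd_pow (b : ℕ) (α β : ℝ) (m : ℕ) : Int.gcd (f0 b α β m) ((b : ℤ) ^ m) ∣ b ^ m := by
  have := Int.gcd_dvd_natAbs_right (f0 b α β m) ((b : ℤ) ^ m)
  simpa [Int.natAbs_pow] using this

lemma one_le_B {b : ℕ} (hb : 2 ≤ b) (m : ℕ) : (1 : ℝ) ≤ (b : ℝ) ^ m :=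
  one_le_pow₀ (by exact_mod_cast (by omega : 1 ≤ b))

section

variable {b : ℕ} (hb : 2 ≤ b) {α β : ℝ} (hα : Irrational α) (hα2 : IsAlgebraic ℚ α)
  (hβ : Irrational β) (hβ2 : IsAlgebraic ℚ β) {ε : ℝ} (hε : 0 < ε)

include hb hα2 hβ2 hε

/-- the first application, to eight coordinates -/
lemma step1 (hP : ∃ᶠ m : ℕ in atTop, Bad b α β ε m) : ∃ y : Fin 8 → ℤ, y ≠ 0 ∧
    ∃ᶠ m : ℕ in atTop, Bad b α β ε m ∧
      (y 0 : ℝ) * ((b : ℝ) ^ m) ^ 2 + y 1 * ((b : ℝ) ^ m * ⌊α * (b : ℝ) ^ m⌋) +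
        y 2 * ((b : ℝ) ^ m * ⌊β * (b : ℝ) ^ m⌋) + y 3 * (b : ℝ) ^ m + y 4 * 1 +
        y 5 * ⌊α * (b : ℝ) ^ m⌋ + y 6 * ⌊β * (b : ℝ) ^ m⌋ + y 7 * f0 b α β m = 0 := by
  have hb0 : (0 : ℝ) < b := by exact_mod_cast (by omega : 0 < b)
  have hb1 : (1 : ℝ) < b := by exact_mod_cast (by omega : 1 < b)
  have hLb : 0 < Real.log b := Real.log_pos hb1
  have h0 : IsAlgebraic ℚ (0 : ℝ) := isAlgebraic_zero
  have h1 : IsAlgebraic ℚ (1 : ℝ) := isAlgebraic_one
  have hB := one_le_B hb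
  obtain ⟨y, hy, hfr⟩ := sub_real (n := 8) (by norm_num) b hb
    (Matrix.of ![![1, 0, 0, 0, 0, 0, 0, 0], ![α, -1, 0, 0, 0, 0, 0, 0], ![β, 0, -1, 0, 0, 0, 0, 0],
      ![0, 0, 0, 1, 0, 0, 0, 0], ![0, 0, 0, 0, 1, 0, 0, 0], ![0, 0, 0, α, 0, -1, 0, 0],
      ![0, 0, 0, β, 0, 0, -1, 0], ![α * β, -β, -α, 0, -1, 0, 0, 1]])
    (by
      intro i j
      fin_cases i <;> fin_cases j <;>
        simp [h0, h1, hα2, hβ2, h1.neg, hα2.mul hβ2, hα2.neg, hβ2.neg])
    (by
      intro i j hij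
      fin_cases i <;> fin_cases j <;> simp at hij ⊢)
    (by intro i; fin_cases i <;> simp)
    (Bad b α β ε) hP
    (fun m => ![((b : ℤ) ^ m) ^ 2, (b : ℤ) ^ m * ⌊α * (b : ℝ) ^ m⌋, (b : ℤ) ^ m * ⌊β * (b : ℝ) ^ m⌋,
      (b : ℤ) ^ m, 1, ⌊α * (b : ℝ) ^ m⌋, ⌊β * (b : ℝ) ^ m⌋, f0 b α β m])
    (by
      intro m _ h
      have h2 := congrFun h 4
      simp at h2)
    (fun m => ![(b ^ m) ^ 2, b ^ m, b ^ m, b ^ m, 1, 1, 1, Int.gcd (f0 b α β m) ((b : ℤ) ^ m)]) 2
    (by
      intro m l _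
      have e2 : b ^ m ∣ b ^ (2 * m) := pow_dvd_pow b (by omega)
      fin_cases l
      · simp only [Fin.zero_eta, Fin.isValue, Matrix.cons_val_zero]
        rw [← pow_mul, mul_comm m 2]
      · exact e2
      · exact e2
      · exact e2
      · exact one_dvd _
      · exact one_dvd _
      · exact one_dvd _
      · exact (gcd_dvd_pow b α β m).trans e2)
    (by
      intro m l _
      fin_cases l
      · simp
      · simp
      · simp
      · simp
      · simp
      · simp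
      · simp
      · exact Int.gcd_dvd_left _ _)
    ![2, 1, 1, 1, 0, 0, 0, 0] 1 one_pos
    (by
      intro m l hm
      have hs := s_abs α b m
      have ht := s_abs β b m
      have hB' := hB m
      have hx := floor_eq α b m
      have hy' := floor_eq β b m
      fin_cases l
      · simp only [Fin.zero_eta, Fin.isValue, Matrix.of_apply, Fin.sum_univ_eight,
          Matrix.cons_val_zero, Matrix.cons_val_one, Matrix.cons_val]
        rw [rp2]
        push_cast
        rw [abs_of_nonneg (by nlinarith [sq_nonneg ((b : ℝ) ^ m)])]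
        linarith
      · simp only [Fin.mk_one, Fin.isValue, Matrix.of_apply, Fin.sum_univ_eight,
          Matrix.cons_val_zero, Matrix.cons_val_one, Matrix.cons_val]
        rw [rp1]
        push_cast
        rw [hx, show ∀ C D E F G : ℝ, α * ((b : ℝ) ^ m) ^ 2 +
          -1 * ((b : ℝ) ^ m * (α * (b : ℝ) ^ m - s α b m)) + 0 * C + 0 * D + 0 * 1 + 0 * E + 0 * F +
          0 * G = s α b m * (b : ℝ) ^ m by intros; ring, abs_mul,
          abs_of_nonneg (by linarith : (0 : ℝ) ≤ (b : ℝ) ^ m)]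
        exact mul_le_mul_of_nonneg_right hs (by linarith)
      · simp only [Fin.reduceFinMk, Fin.isValue, Matrix.of_apply, Fin.sum_univ_eight,
          Matrix.cons_val_zero, Matrix.cons_val_one, Matrix.cons_val]
        rw [rp1]
        push_cast
        rw [hy', show ∀ C D E F G : ℝ, β * ((b : ℝ) ^ m) ^ 2 + 0 * C +
          -1 * ((b : ℝ) ^ m * (β * (b : ℝ) ^ m - s β b m)) + 0 * D + 0 * 1 + 0 * E + 0 * F +
          0 * G = s β b m * (b : ℝ) ^ m by intros; ring, abs_mul,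
          abs_of_nonneg (by linarith : (0 : ℝ) ≤ (b : ℝ) ^ m)]
        exact mul_le_mul_of_nonneg_right ht (by linarith)
      · simp only [Fin.reduceFinMk, Fin.isValue, Matrix.of_apply, Fin.sum_univ_eight,
          Matrix.cons_val_zero, Matrix.cons_val_one, Matrix.cons_val]
        rw [rp1]
        push_cast
        rw [show ∀ A B C D E F : ℝ, 0 * A + 0 * B + 0 * C + 1 * (b : ℝ) ^ m + 0 * 1 + 0 * D + 0 * E +
          0 * F = (b : ℝ) ^ m by intros; ring, abs_of_nonneg (by linarith)]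
        linarith
      · simp only [Fin.reduceFinMk, Fin.isValue, Matrix.of_apply, Fin.sum_univ_eight,
          Matrix.cons_val_zero, Matrix.cons_val_one, Matrix.cons_val]
        rw [rp0]
        push_cast
        rw [show ∀ A B C D E F G : ℝ, 0 * A + 0 * B + 0 * C + 0 * D + 1 * 1 + 0 * E + 0 * F +
          0 * G = (1 : ℝ) by intros; ring, abs_one]
        linarith
      · simp only [Fin.reduceFinMk, Fin.isValue, Matrix.of_apply, Fin.sum_univ_eight,
          Matrix.cons_val_zero, Matrix.cons_val_one, Matrix.cons_val]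
        rw [rp0]
        push_cast
        rw [hx, show ∀ A B C F G : ℝ, 0 * A + 0 * B + 0 * C + α * (b : ℝ) ^ m + 0 * 1 +
          -1 * (α * (b : ℝ) ^ m - s α b m) + 0 * F + 0 * G = s α b m by intros; ring]
        linarith
      · simp only [Fin.reduceFinMk, Fin.isValue, Matrix.of_apply, Fin.sum_univ_eight,
          Matrix.cons_val_zero, Matrix.cons_val_one, Matrix.cons_val]
        rw [rp0]
        push_cast
        rw [hy', show ∀ A B C F G : ℝ, 0 * A + 0 * B + 0 * C + β * (b : ℝ) ^ m + 0 * 1 + 0 * F +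
          -1 * (β * (b : ℝ) ^ m - s β b m) + 0 * G = s β b m by intros; ring]
        linarith
      · simp only [Fin.reduceFinMk, Fin.isValue, Matrix.of_apply, Fin.sum_univ_eight,
          Matrix.cons_val_zero, Matrix.cons_val_one, Matrix.cons_val, f0]
        rw [rp0]
        push_cast
        rw [hx, hy', show ∀ D : ℝ, α * β * ((b : ℝ) ^ m) ^ 2 +
          -β * ((b : ℝ) ^ m * (α * (b : ℝ) ^ m - s α b m)) +
          -α * ((b : ℝ) ^ m * (β * (b : ℝ) ^ m - s β b m)) + 0 * (b : ℝ) ^ m + -1 * 1 +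
          0 * (α * (b : ℝ) ^ m - s α b m) + 0 * (β * (b : ℝ) ^ m - s β b m) +
          1 * ((α * (b : ℝ) ^ m - s α b m) * (β * (b : ℝ) ^ m - s β b m) + 1) =
          s α b m * s β b m by intros; ring, abs_mul]
        · have := abs_nonneg (s α b m)
          nlinarith
        · exact 0)
    ε hε
    (by
      intro m hm
      have e1 : (b : ℝ) ^ (ε * m) ≤ (Int.gcd (f0 b α β m) ((b : ℤ) ^ m) : ℝ) := hm
      have e2 := Real.log_le_log (by positivity) e1
      rw [Real.log_rpow hb0] at e2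
      simp only [Fin.sum_univ_eight, Matrix.cons_val_zero, Matrix.cons_val_one, Matrix.cons_val]
      push_cast
      rw [Real.log_pow, Real.log_pow, Real.log_one]
      push_cast
      nlinarith)
  refine ⟨y, hy, hfr.mono fun m hm => ⟨hm.1, ?_⟩⟩
  have h3 := hm.2
  simp only [Fin.sum_univ_eight, Matrix.cons_val_zero, Matrix.cons_val_one, Matrix.cons_val] at h3
  have h4 : (((y 0 * ((b : ℤ) ^ m) ^ 2 + y 1 * ((b : ℤ) ^ m * ⌊α * (b : ℝ) ^ m⌋) +
      y 2 * ((b : ℤ) ^ m * ⌊β * (b : ℝ) ^ m⌋) + y 3 * (b : ℤ) ^ m + y 4 * 1 +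
      y 5 * ⌊α * (b : ℝ) ^ m⌋ + y 6 * ⌊β * (b : ℝ) ^ m⌋ + y 7 * f0 b α β m : ℤ)) : ℝ) = 0 := by
    rw [h3]; norm_num
  push_cast at h4
  exact h4

/-- an approximate relation between the fractional parts gives an exact linear relation -/
lemma step2 (P : ℕ → Prop) (A C D K : ℝ) (hA : IsAlgebraic ℚ A) (hC : IsAlgebraic ℚ C)
    (hD : IsAlgebraic ℚ D) (hC0 : C ≠ 0)
    (hP : ∃ᶠ m : ℕ in atTop, P m ∧ |A * s α b m + C * s β b m - D| * (b : ℝ) ^ m ≤ K) :
    ∃ e : Fin 4 → ℤ, e ≠ 0 ∧ ∃ᶠ m : ℕ in atTop, P m ∧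
      (e 0 : ℝ) * (b : ℝ) ^ m + e 1 + e 2 * ⌊α * (b : ℝ) ^ m⌋ + e 3 * ⌊β * (b : ℝ) ^ m⌋ = 0 := by
  have hb0 : (0 : ℝ) < b := by exact_mod_cast (by omega : 0 < b)
  have h0 : IsAlgebraic ℚ (0 : ℝ) := isAlgebraic_zero
  have h1 : IsAlgebraic ℚ (1 : ℝ) := isAlgebraic_one
  have hB := one_le_B hb
  have hK : 0 ≤ K := by
    obtain ⟨m, hm⟩ := hP.exists
    exact le_trans (by positivity) hm.2
  obtain ⟨y, hy, hfr⟩ := sub_real (n := 4) (by norm_num) b hb
    (Matrix.of ![![1, 0, 0, 0], ![0, 1, 0, 0], ![α, 0, -1, 0], ![A * α + C * β, -D, -A, -C]])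
    (by
      intro i j
      fin_cases i <;> fin_cases j <;>
        simp [h0, h1, hα2, h1.neg, hA.neg, hC.neg, hD.neg, (hA.mul hα2).add (hC.mul hβ2)])
    (by
      intro i j hij
      fin_cases i <;> fin_cases j <;> simp at hij ⊢)
    (by intro i; fin_cases i <;> simp [hC0])
    (fun m => P m ∧ |A * s α b m + C * s β b m - D| * (b : ℝ) ^ m ≤ K) hP
    (fun m => ![(b : ℤ) ^ m, 1, ⌊α * (b : ℝ) ^ m⌋, ⌊β * (b : ℝ) ^ m⌋])
    (by
      intro m _ h
      have h2 := congrFun h 1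
      simp at h2)
    (fun m => ![b ^ m, 1, 1, 1]) 1
    (by
      intro m l _
      fin_cases l <;> simp)
    (by
      intro m l _
      fin_cases l <;> simp)
    ![1, 0, 0, -1] (K + 1) (by positivity)
    (by
      intro m l hm
      have hs := s_abs α b m
      have hB' := hB m
      have hx := floor_eq α b m
      have hy' := floor_eq β b m
      fin_cases l
      · simp only [Fin.zero_eta, Fin.isValue, Matrix.of_apply, Fin.sum_univ_four,
          Matrix.cons_val_zero, Matrix.cons_val_one, Matrix.cons_val]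
        rw [rp1]
        push_cast
        rw [one_mul, zero_mul, zero_mul, zero_mul, add_zero, add_zero, add_zero,
          abs_of_nonneg (by linarith)]
        nlinarith
      · simp only [Fin.mk_one, Fin.isValue, Matrix.of_apply, Fin.sum_univ_four,
          Matrix.cons_val_zero, Matrix.cons_val_one, Matrix.cons_val]
        rw [rp0]
        push_cast
        rw [zero_mul, zero_mul, zero_mul, one_mul, zero_add, add_zero, add_zero, abs_one]
        linarith
      · simp only [Fin.reduceFinMk, Fin.isValue, Matrix.of_apply, Fin.sum_univ_four,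
          Matrix.cons_val_zero, Matrix.cons_val_one, Matrix.cons_val]
        rw [rp0]
        push_cast
        rw [hx, show ∀ G : ℝ, α * (b : ℝ) ^ m + 0 * 1 + -1 * (α * (b : ℝ) ^ m - s α b m) + 0 * G =
          s α b m by intros; ring]
        linarith
      · simp only [Fin.reduceFinMk, Fin.isValue, Matrix.of_apply, Fin.sum_univ_four,
          Matrix.cons_val_zero, Matrix.cons_val_one, Matrix.cons_val]
        rw [rpm]
        push_cast
        rw [hx, hy', show (A * α + C * β) * (b : ℝ) ^ m + -D * 1 +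
          -A * (α * (b : ℝ) ^ m - s α b m) + -C * (β * (b : ℝ) ^ m - s β b m) =
          A * s α b m + C * s β b m - D by ring, ← div_eq_mul_inv, le_div_iff₀ (by linarith)]
        linarith [hm.2])
    1 one_pos
    (by
      intro m _
      simp only [Fin.sum_univ_four, Matrix.cons_val_zero, Matrix.cons_val_one, Matrix.cons_val]
      push_cast
      rw [Real.log_pow, Real.log_one]
      linarith)
  refine ⟨y, hy, hfr.mono fun m hm => ⟨hm.1.1, ?_⟩⟩
  have h3 := hm.2
  simp only [Fin.sum_univ_four, Matrix.cons_val_zero, Matrix.cons_val_one, Matrix.cons_val] at h3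
  have h4 : (((y 0 * (b : ℤ) ^ m + y 1 * 1 + y 2 * ⌊α * (b : ℝ) ^ m⌋ +
      y 3 * ⌊β * (b : ℝ) ^ m⌋ : ℤ)) : ℝ) = 0 := by
    rw [h3]; norm_num
  push_cast at h4
  linarith

include hα in
/-- the third application: a linear relation is impossible -/
lemma step3 (e0 e1 e2 e3 : ℤ) (h2 : e2 ≠ 0) (h3 : e3 ≠ 0)
    (hP : ∃ᶠ m : ℕ in atTop, Bad b α β ε m ∧
      (e0 : ℝ) * (b : ℝ) ^ m + e1 + e2 * ⌊α * (b : ℝ) ^ m⌋ + e3 * ⌊β * (b : ℝ) ^ m⌋ = 0) :
    False := by
  have hb0 : (0 : ℝ) < b := by exact_mod_cast (by omega : 0 < b)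
  have hb1 : (1 : ℝ) < b := by exact_mod_cast (by omega : 1 < b)
  have hLb : 0 < Real.log b := Real.log_pos hb1
  have h0 : IsAlgebraic ℚ (0 : ℝ) := isAlgebraic_zero
  have h1 : IsAlgebraic ℚ (1 : ℝ) := isAlgebraic_one
  have hi : ∀ z : ℤ, IsAlgebraic ℚ ((z : ℤ) : ℝ) := fun z => isAlgebraic_intCast z
  have h2a : IsAlgebraic ℚ (2 : ℝ) := by
    have := h1.add h1
    norm_num at this
    exact this
  have hB := one_le_B hb
  have h3r : (e3 : ℝ) ≠ 0 := by exact_mod_cast h3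
  have h2r : (e2 : ℝ) ≠ 0 := by exact_mod_cast h2
  obtain ⟨y, hy, hfr⟩ := sub_real (n := 6) (by norm_num) b hb
    (Matrix.of ![![1, 0, 0, 0, 0, 0], ![α, -1, 0, 0, 0, 0], ![0, 0, 1, 0, 0, 0],
      ![0, 0, 0, 1, 0, 0], ![0, 0, α, 0, -1, 0],
      ![e2 * (α * α), -(2 * α * e2) - e0, 0, e3, -e1, -e3]])
    (by
      intro i j
      fin_cases i <;> fin_cases j <;>
        simp [h0, h1, hα2, h1.neg, hi, (hi e3).neg, (hi e1).neg, (hi e2).mul (hα2.mul hα2),
          ((h2a.mul hα2).mul (hi e2)).neg.sub (hi e0)])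
    (by
      intro i j hij
      fin_cases i <;> fin_cases j <;> simp at hij ⊢)
    (by intro i; fin_cases i <;> simp [h3])
    (fun m => Bad b α β ε m ∧
      (e0 : ℝ) * (b : ℝ) ^ m + e1 + e2 * ⌊α * (b : ℝ) ^ m⌋ + e3 * ⌊β * (b : ℝ) ^ m⌋ = 0) hP
    (fun m => ![((b : ℤ) ^ m) ^ 2, (b : ℤ) ^ m * ⌊α * (b : ℝ) ^ m⌋,
      (b : ℤ) ^ m, 1, ⌊α * (b : ℝ) ^ m⌋, f0 b α β m])
    (by
      intro m _ h
      have h2 := congrFun h 3
      simp at h2)
    (fun m => ![(b ^ m) ^ 2, b ^ m, b ^ m, 1, 1, Int.gcd (f0 b α β m) ((b : ℤ) ^ m)]) 2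
    (by
      intro m l _
      have e2 : b ^ m ∣ b ^ (2 * m) := pow_dvd_pow b (by omega)
      fin_cases l
      · simp only [Fin.zero_eta, Fin.isValue, Matrix.cons_val_zero]
        rw [← pow_mul, mul_comm m 2]
      · exact e2
      · exact e2
      · exact one_dvd _
      · exact one_dvd _
      · exact (gcd_dvd_pow b α β m).trans e2)
    (by
      intro m l _
      fin_cases l
      · simp
      · simp
      · simp
      · simp
      · simp
      · exact Int.gcd_dvd_left _ _)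
    ![2, 1, 1, 0, 0, 0] (1 + |(e2 : ℝ)|) (by positivity)
    (by
      intro m l hm
      have hs := s_abs α b m
      have hB' := hB m
      have hx := floor_eq α b m
      have he := abs_nonneg (e2 : ℝ)
      fin_cases l
      · simp only [Fin.zero_eta, Fin.isValue, Matrix.of_apply, Fin.sum_univ_six,
          Matrix.cons_val_zero, Matrix.cons_val_one, Matrix.cons_val]
        rw [rp2]
        push_cast
        rw [show ∀ A B C D E : ℝ, 1 * ((b : ℝ) ^ m) ^ 2 + 0 * A + 0 * B + 0 * C + 0 * D + 0 * E =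
          ((b : ℝ) ^ m) ^ 2 by intros; ring, abs_of_nonneg (by positivity)]
        nlinarith [sq_nonneg ((b : ℝ) ^ m)]
      · simp only [Fin.mk_one, Fin.isValue, Matrix.of_apply, Fin.sum_univ_six,
          Matrix.cons_val_zero, Matrix.cons_val_one, Matrix.cons_val]
        rw [rp1]
        push_cast
        rw [hx, show ∀ C D F G : ℝ, α * ((b : ℝ) ^ m) ^ 2 +
          -1 * ((b : ℝ) ^ m * (α * (b : ℝ) ^ m - s α b m)) + 0 * C + 0 * D + 0 * F +
          0 * G = s α b m * (b : ℝ) ^ m by intros; ring, abs_mul,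
          abs_of_nonneg (by linarith : (0 : ℝ) ≤ (b : ℝ) ^ m)]
        exact mul_le_mul_of_nonneg_right (by linarith) (by linarith)
      · simp only [Fin.reduceFinMk, Fin.isValue, Matrix.of_apply, Fin.sum_univ_six,
          Matrix.cons_val_zero, Matrix.cons_val_one, Matrix.cons_val]
        rw [rp1]
        push_cast
        rw [show ∀ A B D E F : ℝ, 0 * A + 0 * B + 1 * (b : ℝ) ^ m + 0 * D + 0 * E +
          0 * F = (b : ℝ) ^ m by intros; ring, abs_of_nonneg (by linarith)]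
        nlinarith
      · simp only [Fin.reduceFinMk, Fin.isValue, Matrix.of_apply, Fin.sum_univ_six,
          Matrix.cons_val_zero, Matrix.cons_val_one, Matrix.cons_val]
        rw [rp0]
        push_cast
        rw [show ∀ A B C E F : ℝ, 0 * A + 0 * B + 0 * C + 1 * 1 + 0 * E +
          0 * F = (1 : ℝ) by intros; ring, abs_one]
        linarith
      · simp only [Fin.reduceFinMk, Fin.isValue, Matrix.of_apply, Fin.sum_univ_six,
          Matrix.cons_val_zero, Matrix.cons_val_one, Matrix.cons_val]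
        rw [rp0]
        push_cast
        rw [hx, show ∀ A B D G : ℝ, 0 * A + 0 * B + α * (b : ℝ) ^ m + 0 * D +
          -1 * (α * (b : ℝ) ^ m - s α b m) + 0 * G = s α b m by intros; ring]
        linarith
      · simp only [Fin.reduceFinMk, Fin.isValue, Matrix.of_apply, Fin.sum_univ_six,
          Matrix.cons_val_zero, Matrix.cons_val_one, Matrix.cons_val, f0]
        rw [rp0]
        push_cast
        have hrel := hm.2
        have e : (e2 : ℝ) * (α * α) * ((b : ℝ) ^ m) ^ 2 +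
          (-(2 * α * e2) - e0) * ((b : ℝ) ^ m * (⌊α * (b : ℝ) ^ m⌋ : ℝ)) + 0 * (b : ℝ) ^ m +
          e3 * 1 + -(e1 : ℝ) * (⌊α * (b : ℝ) ^ m⌋ : ℝ) +
          -(e3 : ℝ) * ((⌊α * (b : ℝ) ^ m⌋ : ℝ) * (⌊β * (b : ℝ) ^ m⌋ : ℝ) + 1) =
          e2 * (s α b m * s α b m) := by
          unfold s
          linear_combination (-(⌊α * (b : ℝ) ^ m⌋ : ℝ)) * hrel
        rw [e, abs_mul, abs_mul]
        have hs0 := abs_nonneg (s α b m)
        have h5 : |s α b m| * |s α b m| ≤ 1 := by nlinarith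
        nlinarith)
    ε hε
    (by
      intro m hm
      have e1 : (b : ℝ) ^ (ε * m) ≤ (Int.gcd (f0 b α β m) ((b : ℤ) ^ m) : ℝ) := hm.1
      have e2 := Real.log_le_log (by positivity) e1
      rw [Real.log_rpow hb0] at e2
      simp only [Fin.sum_univ_six, Matrix.cons_val_zero, Matrix.cons_val_one, Matrix.cons_val]
      push_cast
      rw [Real.log_pow, Real.log_pow, Real.log_one]
      push_cast
      nlinarith)
  -- the relation without `xy + 1`
  set p0 : ℤ := e3 * y 0 with hp0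
  set p1 : ℤ := e3 * y 1 - y 5 * e0 with hp1
  set p2 : ℤ := e3 * y 2 with hp2
  set p3 : ℤ := e3 * y 3 + y 5 * e3 with hp3
  set p4 : ℤ := e3 * y 4 - y 5 * e1 with hp4
  set p5 : ℤ := y 5 * e2 with hp5
  have hexp : ∃ᶠ m : ℕ in atTop, ((p0 : ℝ) + p1 * α - p5 * (α * α)) * ((b : ℝ) ^ m) ^ 2 +
      ((p2 + p4 * α) - (p1 - 2 * α * p5) * s α b m) * (b : ℝ) ^ m +
      (p3 - p4 * s α b m - p5 * (s α b m * s α b m)) = 0 := by
    refine hfr.mono fun m hm => ?_
    have h5 := hm.2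
    have h6 := hm.1.2
    simp only [Fin.sum_univ_six, Matrix.cons_val_zero, Matrix.cons_val_one, Matrix.cons_val] at h5
    have h7 : (((y 0 * ((b : ℤ) ^ m) ^ 2 + y 1 * ((b : ℤ) ^ m * ⌊α * (b : ℝ) ^ m⌋) +
        y 2 * (b : ℤ) ^ m + y 3 * 1 + y 4 * ⌊α * (b : ℝ) ^ m⌋ + y 5 * f0 b α β m : ℤ)) : ℝ) = 0 := by
      rw [h5]; norm_num
    unfold f0 at h7
    push_cast at h7
    unfold s
    rw [hp0, hp1, hp2, hp3, hp4, hp5]
    push_cast
    linear_combination (e3 : ℝ) * h7 - (y 5 : ℝ) * (⌊α * (b : ℝ) ^ m⌋ : ℝ) * h6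
  set R : ℕ → ℝ := fun m => p3 - p4 * s α b m - p5 * (s α b m * s α b m) with hR
  set E : ℝ := p1 - 2 * α * p5 with hE
  set F : ℝ := p2 + p4 * α with hF
  set P2 : ℝ := p0 + p1 * α - p5 * (α * α) with hP2
  set K : ℝ := |F| + |E| + (|(p3 : ℝ)| + |(p4 : ℝ)| + |(p5 : ℝ)|) with hK
  have hRle : ∀ m, |R m| ≤ |(p3 : ℝ)| + |(p4 : ℝ)| + |(p5 : ℝ)| := by
    intro m
    have hs := s_abs α b m
    have hss : |s α b m * s α b m| ≤ 1 := by
      rw [abs_mul]; nlinarith [abs_nonneg (s α b m)]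
    have g2 : |p4 * s α b m| ≤ |(p4 : ℝ)| := by
      rw [abs_mul]; nlinarith [abs_nonneg (p4 : ℝ)]
    have g3 : |p5 * (s α b m * s α b m)| ≤ |(p5 : ℝ)| := by
      rw [abs_mul]; nlinarith [abs_nonneg (p5 : ℝ)]
    calc |R m| ≤ |(p3 : ℝ) - p4 * s α b m| + |p5 * (s α b m * s α b m)| := abs_sub _ _
      _ ≤ |(p3 : ℝ)| + |p4 * s α b m| + |p5 * (s α b m * s α b m)| := by
          gcongr; exact abs_sub _ _
      _ ≤ _ := by linarith
  have hP20 : P2 = 0 := by
    apply coef_zero hb _ K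
    refine hexp.mono fun m hm => ?_
    have hB' := hB m
    have g1 : P2 * ((b : ℝ) ^ m) ^ 2 = -((F - E * s α b m) * (b : ℝ) ^ m + R m) := by linarith
    have g2 : |P2| * ((b : ℝ) ^ m) ^ 2 ≤ (|F| + |E|) * (b : ℝ) ^ m + |R m| := by
      have g3 := congrArg abs g1
      rw [abs_mul, abs_neg, abs_of_nonneg (by positivity : (0 : ℝ) ≤ ((b : ℝ) ^ m) ^ 2)] at g3
      rw [g3]
      refine (abs_add_le _ _).trans ?_
      gcongr
      rw [abs_mul, abs_of_nonneg (by linarith : (0 : ℝ) ≤ (b : ℝ) ^ m)]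
      apply mul_le_mul_of_nonneg_right _ (by linarith)
      refine (abs_sub _ _).trans ?_
      rw [abs_mul]
      have := s_abs α b m
      have := abs_nonneg E
      nlinarith
    have g4 := hRle m
    have g5 : |P2| * (b : ℝ) ^ m * (b : ℝ) ^ m ≤ K * (b : ℝ) ^ m := by
      have g6 : 0 ≤ |(p3 : ℝ)| + |(p4 : ℝ)| + |(p5 : ℝ)| := by positivity
      rw [hK]
      nlinarith
    exact le_of_mul_le_mul_right g5 (by linarith)
  have hexp2 : ∃ᶠ m : ℕ in atTop, |F - E * s α b m| * (b : ℝ) ^ m ≤ K := by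
    refine hexp.mono fun m hm => ?_
    have hB' := hB m
    rw [hP20, zero_mul, zero_add] at hm
    have g1 : (F - E * s α b m) * (b : ℝ) ^ m = -R m := by linarith
    have g3 := congrArg abs g1
    rw [abs_mul, abs_neg, abs_of_nonneg (by linarith : (0 : ℝ) ≤ (b : ℝ) ^ m)] at g3
    rw [g3]
    have g4 := hRle m
    have := abs_nonneg F
    have := abs_nonneg E
    linarith
  by_cases hE0 : E = 0
  · -- then `p1 = p5 = 0`
    have g1 : (p1 : ℝ) + ((-2 * p5 : ℤ) : ℝ) * α = 0 := by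
      push_cast
      linear_combination hE0
    obtain ⟨g2, g3⟩ := lin_rel hα g1
    have g4 : p5 = 0 := by omega
    have g5 : y 5 = 0 := by
      rw [hp5] at g4
      rcases mul_eq_zero.1 g4 with h | h
      · exact h
      · exact absurd h h2
    have g6 : p0 = 0 := by
      have : (p0 : ℝ) = 0 := by
        have h5 := hP20
        rw [hP2, g2, g4] at h5
        simpa using h5
      exact_mod_cast this
    have g7 : F = 0 := by
      apply coef_zero hb _ K
      refine hexp2.mono fun m hm => ?_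
      rwa [hE0, zero_mul, sub_zero] at hm
    obtain ⟨g8, g9⟩ := lin_rel hα g7
    have g10 : p3 = 0 := by
      obtain ⟨m, hm⟩ := hexp.exists
      rw [hP20, g7, hE0] at hm
      simp only [hR, g9, g4, Int.cast_zero] at hm
      have : (p3 : ℝ) = 0 := by linarith
      exact_mod_cast this
    have hz : ∀ z : ℤ, e3 * z = 0 → z = 0 := fun z hz => (mul_eq_zero.1 hz).resolve_left h3
    apply hy
    funext l
    fin_cases l
    · exact hz _ g6
    · apply hz
      rw [hp1, g5] at g2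
      simpa using g2
    · exact hz _ g8
    · apply hz
      rw [hp3, g5] at g10
      simpa using g10
    · apply hz
      rw [hp4, g5] at g9
      simpa using g9
    · exact g5
  · have hFalg : IsAlgebraic ℚ F := (hi p2).add ((hi p4).mul hα2)
    have hEalg : IsAlgebraic ℚ E := (hi p1).sub ((h2a.mul hα2).mul (hi p5))
    refine no_const hb hα hα2 (hFalg.mul hEalg.inv) (K / |E|) (hexp2.mono fun m hm => ?_)
    have hE' : 0 < |E| := abs_pos.2 hE0
    rw [le_div_iff₀ hE']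
    have g1 : |s α b m - F * E⁻¹| * |E| = |F - E * s α b m| := by
      rw [← abs_mul, ← abs_neg (F - E * s α b m)]
      congr 1
      field_simp
      ring
    calc |s α b m - F * E⁻¹| * (b : ℝ) ^ m * |E| = (|s α b m - F * E⁻¹| * |E|) * (b : ℝ) ^ m := by ring
      _ ≤ K := by rw [g1]; exact hm

include hα hβ in
/-- the case `k = 0` -/
theorem main0 (hP : ∃ᶠ m : ℕ in atTop, Bad b α β ε m) : False := by
  have hB := one_le_B hb
  obtain ⟨y, hy, hfr⟩ := step1 hb hα2 hβ2 hε hP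
  have hi : ∀ z : ℤ, IsAlgebraic ℚ ((z : ℤ) : ℝ) := fun z => isAlgebraic_intCast z
  set P2 : ℝ := y 0 + y 1 * α + y 2 * β + y 7 * (α * β) with hP2
  set A : ℝ := y 1 + y 7 * β with hA
  set C : ℝ := y 2 + y 7 * α with hC
  set D : ℝ := y 3 + y 5 * α + y 6 * β with hD
  set R : ℕ → ℝ := fun m => y 7 * (s α b m * s β b m) + (y 7 + y 4) - y 5 * s α b m -
    y 6 * s β b m with hR
  have hexp : ∃ᶠ m : ℕ in atTop, Bad b α β ε m ∧ P2 * ((b : ℝ) ^ m) ^ 2 +
      (D - (A * s α b m + C * s β b m)) * (b : ℝ) ^ m + R m = 0 := by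
    refine hfr.mono fun m hm => ⟨hm.1, ?_⟩
    have h3 := hm.2
    unfold f0 at h3
    push_cast at h3
    rw [floor_eq, floor_eq] at h3
    rw [← h3, hP2, hA, hC, hD, hR]
    ring
  set K : ℝ := |D| + |A| + |C| + (|(y 7 : ℝ)| + |(y 7 : ℝ) + y 4| + |(y 5 : ℝ)| + |(y 6 : ℝ)|) with hK
  have hRle : ∀ m, |R m| ≤ |(y 7 : ℝ)| + |(y 7 : ℝ) + y 4| + |(y 5 : ℝ)| + |(y 6 : ℝ)| := by
    intro m
    have hs := s_abs α b m
    have ht := s_abs β b m
    have hss : |s α b m * s β b m| ≤ 1 := by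
      rw [abs_mul]; nlinarith [abs_nonneg (s α b m), abs_nonneg (s β b m)]
    have g1 : |y 7 * (s α b m * s β b m)| ≤ |(y 7 : ℝ)| := by
      rw [abs_mul]; nlinarith [abs_nonneg (y 7 : ℝ)]
    have g2 : |y 5 * s α b m| ≤ |(y 5 : ℝ)| := by
      rw [abs_mul]; nlinarith [abs_nonneg (y 5 : ℝ)]
    have g3 : |y 6 * s β b m| ≤ |(y 6 : ℝ)| := by
      rw [abs_mul]; nlinarith [abs_nonneg (y 6 : ℝ)]
    calc |R m| ≤ |y 7 * (s α b m * s β b m) + (y 7 + y 4) - y 5 * s α b m| + |y 6 * s β b m| :=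
          abs_sub _ _
      _ ≤ |y 7 * (s α b m * s β b m) + (y 7 + y 4)| + |y 5 * s α b m| + |y 6 * s β b m| := by
          gcongr; exact abs_sub _ _
      _ ≤ |y 7 * (s α b m * s β b m)| + |(y 7 : ℝ) + y 4| + |y 5 * s α b m| + |y 6 * s β b m| := by
          gcongr; exact abs_add_le _ _
      _ ≤ _ := by linarith
  have hABs : ∀ m, |A * s α b m + C * s β b m| ≤ |A| + |C| := by
    intro m
    refine (abs_add_le _ _).trans ?_
    rw [abs_mul, abs_mul]
    have := s_abs α b m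
    have := s_abs β b m
    have := abs_nonneg A
    have := abs_nonneg C
    nlinarith
  have hP20 : P2 = 0 := by
    apply coef_zero hb _ K
    refine hexp.mono fun m hm => ?_
    have hB' := hB m
    have g1 : P2 * ((b : ℝ) ^ m) ^ 2 = -((D - (A * s α b m + C * s β b m)) * (b : ℝ) ^ m + R m) := by
      linarith [hm.2]
    have g2 : |P2| * ((b : ℝ) ^ m) ^ 2 ≤ (|D| + |A| + |C|) * (b : ℝ) ^ m + |R m| := by
      have g3 := congrArg abs g1
      rw [abs_mul, abs_neg, abs_of_nonneg (by positivity : (0 : ℝ) ≤ ((b : ℝ) ^ m) ^ 2)] at g3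
      rw [g3]
      refine (abs_add_le _ _).trans ?_
      gcongr
      rw [abs_mul, abs_of_nonneg (by linarith : (0 : ℝ) ≤ (b : ℝ) ^ m)]
      apply mul_le_mul_of_nonneg_right _ (by linarith)
      refine (abs_sub _ _).trans ?_
      have := hABs m
      linarith
    have g4 := hRle m
    have g5 : |P2| * (b : ℝ) ^ m * (b : ℝ) ^ m ≤ K * (b : ℝ) ^ m := by
      have g6 : 0 ≤ |(y 7 : ℝ)| + |(y 7 : ℝ) + y 4| + |(y 5 : ℝ)| + |(y 6 : ℝ)| := by positivity
      rw [hK]
      nlinarith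
    exact le_of_mul_le_mul_right g5 (by linarith)
  have hexp2 : ∃ᶠ m : ℕ in atTop, Bad b α β ε m ∧
      |A * s α b m + C * s β b m - D| * (b : ℝ) ^ m ≤ K := by
    refine hexp.mono fun m hm => ⟨hm.1, ?_⟩
    have hB' := hB m
    have hm2 := hm.2
    rw [hP20, zero_mul, zero_add] at hm2
    have g1 : (A * s α b m + C * s β b m - D) * (b : ℝ) ^ m = R m := by linarith
    have g3 := congrArg abs g1
    rw [abs_mul, abs_of_nonneg (by linarith : (0 : ℝ) ≤ (b : ℝ) ^ m)] at g3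
    rw [g3]
    have g4 := hRle m
    have := abs_nonneg A
    have := abs_nonneg C
    have := abs_nonneg D
    linarith
  -- a linear relation
  have hlin : ∃ e : Fin 4 → ℤ, e ≠ 0 ∧ ∃ᶠ m : ℕ in atTop, Bad b α β ε m ∧
      (e 0 : ℝ) * (b : ℝ) ^ m + e 1 + e 2 * ⌊α * (b : ℝ) ^ m⌋ + e 3 * ⌊β * (b : ℝ) ^ m⌋ = 0 := by
    by_cases hC0 : C = 0
    · obtain ⟨g2, g7⟩ := lin_rel hα hC0
      have g1 : (y 0 : ℝ) + y 1 * α = 0 := by
        have h5 := hP20
        rw [hP2, g2, g7] at h5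
        simpa using h5
      obtain ⟨g0, g1⟩ := lin_rel hα g1
      refine ⟨![y 3, y 4, y 5, y 6], ?_, ?_⟩
      · intro h
        apply hy
        have k0 := congrFun h 0
        have k1 := congrFun h 1
        have k2 := congrFun h 2
        have k3 := congrFun h 3
        simp only [Matrix.cons_val_zero, Matrix.cons_val_one, Matrix.cons_val, Pi.zero_apply] at k0 k1 k2 k3
        funext l
        fin_cases l
        · exact g0
        · exact g1
        · exact g2
        · exact k0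
        · exact k1
        · exact k2
        · exact k3
        · exact g7
      · refine hfr.mono fun m hm => ⟨hm.1, ?_⟩
        have h3 := hm.2
        rw [g0, g1, g2, g7] at h3
        simp only [Matrix.cons_val_zero, Matrix.cons_val_one, Matrix.cons_val]
        push_cast at h3
        linarith
    · exact step2 hb hα2 hβ2 hε (Bad b α β ε) A C D K ((hi _).add ((hi _).mul hβ2))
        ((hi _).add ((hi _).mul hα2)) (((hi _).add ((hi _).mul hα2)).add ((hi _).mul hβ2)) hC0 hexp2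
  obtain ⟨e, he, hfr2⟩ := hlin
  -- both coefficients are nonzero
  have h3 : e 3 ≠ 0 := by
    intro h
    have := rel3 hb hα (e 0) (e 1) (e 2) (hfr2.mono fun m hm => by
      have h5 := hm.2
      rw [h] at h5
      push_cast at h5
      linarith)
    apply he
    funext l
    fin_cases l
    · exact this.1
    · exact this.2.1
    · exact this.2.2
    · exact h
  have h2 : e 2 ≠ 0 := by
    intro h
    have := rel3 hb hβ (e 0) (e 1) (e 3) (hfr2.mono fun m hm => by
      have h5 := hm.2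
      rw [h] at h5
      push_cast at h5
      linarith)
    exact h3 this.2.2
  exact step3 hb hα hα2 hβ2 hε (e 0) (e 1) (e 2) (e 3) h2 h3 hfr2

end

/-- `f(k, m) = [α b ^ (k + m)] [β b ^ m] + 1` -/
noncomputable def f (b : ℕ) (α β : ℝ) (k m : ℕ) : ℤ :=
  ⌊α * (b : ℝ) ^ (k + m)⌋ * ⌊β * (b : ℝ) ^ m⌋ + 1

/-- **Main theorem.** For every `b ≥ 2`, all irrational real algebraic `α, β`, every `ε > 0` and
every `k ≥ 0` there is `M` such that `gcd(f(k, m), b ^ m) < b ^ (ε m)` for all `m ≥ M`. -/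
theorem result (b : ℕ) (hb : 2 ≤ b) (α β : ℝ) (hα : Irrational α) (hα2 : IsAlgebraic ℚ α)
    (hβ : Irrational β) (hβ2 : IsAlgebraic ℚ β) (ε : ℝ) (hε : 0 < ε) (k : ℕ) :
    ∃ M : ℕ, ∀ m : ℕ, M ≤ m → (Int.gcd (f b α β k m) ((b : ℤ) ^ m) : ℝ) < (b : ℝ) ^ (ε * m) := by
  by_contra hcon
  push Not at hcon
  have hP : ∃ᶠ m : ℕ in atTop,
      (b : ℝ) ^ (ε * m) ≤ (Int.gcd (f b α β k m) ((b : ℤ) ^ m) : ℝ) := by
    rw [frequently_atTop]
    intro M
    obtain ⟨m, hm1, hm2⟩ := hcon M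
    exact ⟨m, hm1, hm2⟩
  have hα' : Irrational (α * (b : ℝ) ^ k) := by
    have h1 : ((b ^ k : ℕ) : ℝ) = (b : ℝ) ^ k := by push_cast; ring
    rw [← h1]
    exact hα.mul_natCast (pow_ne_zero k (by omega))
  have hα2' : IsAlgebraic ℚ (α * (b : ℝ) ^ k) :=
    hα2.mul ((isAlgebraic_natCast b).pow k)
  refine main0 hb hα' hα2' hβ hβ2 hε (hP.mono fun m hm => ?_)
  unfold Bad f0
  unfold f at hm
  rwa [mul_assoc, ← pow_add]

end Pool.Agent.Results.MP_077ac3_nt.SmallGcd
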